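import Pool.Agent.Lib.MP_6bc78b_nt.MS.QZ.Iface3
import Pool.Agent.Lib.MP_6bc78b_nt.MS.QZ.H70.DMVAux

/-! Project MS, Part QZ (QG), module SMV: asymptotic mean values over the zeros. -/

set_option autoImplicit false

open Complex Filter Topology MeasureTheory ArithmeticFunction

namespace Pool.Agent.Lib.MP_6bc78b_nt.MS.QZ.H50

open Pool.Agent.Lib.MP_6bc78b_nt.MS Pool.Agent.Lib.MP_6bc78b_nt.MS.P1

lemma adm_supp {T : ℝ} {f : ArithmeticFunction ℝ} (hf : Adm T f) :
    ∀ n, NQ T < n → f n = 0 := by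
  intro n hn
  by_contra h
  have h1 := (hf n).2 h
  have h2 : n ≤ NQ T := Nat.le_floor h1
  omega

lemma LS_adm {T : ℝ} {f : ArithmeticFunction ℝ} (hf : Adm T f) (s : ℂ) :
    LS f s = DQ T f s := by
  rw [P5.H59.LS_fin f (NQ T) (adm_supp hf) s]
  rfl

lemma NQ_le {T : ℝ} (hT : 1 ≤ T) : (NQ T : ℝ) ≤ T := by
  have h1 : (NQ T : ℝ) ≤ T ^ (1 / 4 : ℝ) := Nat.floor_le (by positivity)
  have h2 : T ^ (1 / 4 : ℝ) ≤ T ^ (1 : ℝ) :=
    Real.rpow_le_rpow_of_exponent_le hT (by norm_num)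
  rw [Real.rpow_one] at h2
  linarith

lemma AN_adm {T c : ℝ} (hT : 1 ≤ T) (hc : 1 < c) {f : ArithmeticFunction ℝ} (hf : Adm T f) :
    AN c f ≤ T ^ (4 : ℝ) := by
  have hT0 : 0 < T := by linarith
  unfold AN
  rw [tsum_eq_sum (s := Finset.Icc 1 (NQ T))]
  · have h1 : ∀ n ∈ Finset.Icc 1 (NQ T), |f n| * (n : ℝ) ^ (-c) ≤ T ^ (3 : ℝ) := by
      intro n hn
      rw [Finset.mem_Icc] at hn
      have hn' : (1 : ℝ) ≤ n := by exact_mod_cast hn.1
      have h2 : (n : ℝ) ^ (-c) ≤ 1 := Real.rpow_le_one_of_one_le_of_nonpos hn' (by linarith)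
      calc |f n| * (n : ℝ) ^ (-c) ≤ T ^ (3 : ℝ) * 1 :=
            mul_le_mul (hf n).1 h2 (by positivity) (by positivity)
        _ = _ := mul_one _
    refine (Finset.sum_le_sum h1).trans ?_
    rw [Finset.sum_const, Nat.card_Icc, nsmul_eq_mul, Nat.add_sub_cancel]
    calc (NQ T : ℝ) * T ^ (3 : ℝ) ≤ T * T ^ (3 : ℝ) := by
          apply mul_le_mul_of_nonneg_right (NQ_le hT); positivity
      _ = T ^ (1 : ℝ) * T ^ (3 : ℝ) := by rw [Real.rpow_one]
      _ = T ^ (4 : ℝ) := by rw [← Real.rpow_add hT0]; norm_num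
  · intro n hn
    rcases Nat.eq_zero_or_pos n with h0 | h0
    · rw [h0]; simp
    · rw [adm_supp hf n (by
        by_contra h1
        exact hn (Finset.mem_Icc.2 ⟨h0, by omega⟩))]
      simp

/-- The part with `ζ'/ζ`. -/
lemma zeta_part (hLS : LSerStatement) (c T : ℝ) (hc1 : 1 < c) (hT : 1 ≤ T) (hKT : AN c La ≤ T)
    (f g : ArithmeticFunction ℝ) (hf : Adm T f) (hg : Adm T g)
    (hET : ∀ a b : ℕ → ℂ,
      Summable (fun n : ℕ => ‖a n‖ * (n : ℝ) ^ (-c)) →
      (∑' n : ℕ, ‖a n‖ * (n : ℝ) ^ (-c)) ≤ T ^ (12 : ℝ) → (∀ k, ‖b k‖ ≤ T ^ (12 : ℝ)) →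
      ‖VI c (fun s => LSeries a s *
        (∑ k ∈ Finset.Icc 1 ⌊T ^ (1 / 4 : ℝ)⌋₊, b k * (k : ℂ) ^ (-(1 - s))) * WW T s) -
        (cG T : ℂ) * ∑ k ∈ Finset.Icc 1 ⌊T ^ (1 / 4 : ℝ)⌋₊, a k * b k / k‖ ≤ 1 / T) :
    |(VI c (fun s => logDeriv riemannZeta s * (DQ T f s * DQ T g (1 - s)) * WW T s)).re +
      cG T * ∑ k ∈ Finset.Icc 1 (NQ T), (La * f) k * g k / k| ≤ 1 / T := by
  have hT0 : 0 < T := by linarith
  have h312 : T ^ (3 : ℝ) ≤ T ^ (12 : ℝ) := Real.rpow_le_rpow_of_exponent_le hT (by norm_num)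
  obtain ⟨hALa, -, -⟩ := hLS.2.2.2.1 c hc1
  have hAf : ASum c f := P5.H59.ASum_fin _ (NQ T) (adm_supp hf) c
  obtain ⟨h4, h5, h6⟩ := hLS.2.2.2.2.1 c La f hALa hAf
  have hANf := AN_adm hT hc1 hf
  have hANf0 : 0 ≤ AN c f := tsum_nonneg (fun n => by positivity)
  have hnorm : ∀ n : ℕ, ‖(((La * f) n : ℝ) : ℂ)‖ * (n : ℝ) ^ (-c) =
      |(La * f) n| * (n : ℝ) ^ (-c) := by
    intro n
    rw [Complex.norm_real, Real.norm_eq_abs]
  have hA2 : AN c (La * f) ≤ T ^ (12 : ℝ) := by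
    refine h5.trans ?_
    calc AN c La * AN c f ≤ T * T ^ (4 : ℝ) :=
          mul_le_mul hKT hANf hANf0 hT0.le
      _ = T ^ (1 : ℝ) * T ^ (4 : ℝ) := by rw [Real.rpow_one]
      _ = T ^ (5 : ℝ) := by rw [← Real.rpow_add hT0]; norm_num
      _ ≤ T ^ (12 : ℝ) := Real.rpow_le_rpow_of_exponent_le hT (by norm_num)
  have he := hET (fun n => (((La * f) n : ℝ) : ℂ))
    (fun j => ((g j : ℝ) : ℂ))
    (by simp_rw [hnorm]; exact h4) (by simp_rw [hnorm]; exact hA2) (fun j => by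
      rw [Complex.norm_real, Real.norm_eq_abs]
      exact (hg j).1.trans h312)
  have hre : ∀ t : ℝ, (c + t * I : ℂ).re = c := by intro t; simp
  have h1 : VI c (fun s => LSeries (fun n => (((La * f) n : ℝ) : ℂ)) s *
      (∑ j ∈ Finset.Icc 1 ⌊T ^ (1 / 4 : ℝ)⌋₊, ((g j : ℝ) : ℂ) *
        (j : ℂ) ^ (-(1 - s))) * WW T s) =
      - VI c (fun s => logDeriv riemannZeta s *
        (DQ T f s * DQ T g (1 - s)) * WW T s) := by
    rw [← ZBB.VI_neg]
    apply ZBB.VI_congr
    intro t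
    have h2 : LSeries (fun n => (((La * f) n : ℝ) : ℂ)) (c + t * I) =
        (-logDeriv riemannZeta (c + t * I)) * DQ T f (c + t * I) := by
      have h3 := h6 (c + t * I) (hre t)
      rw [hLS.1 _ (by rw [hre]; exact hc1), LS_adm hf] at h3
      exact h3
    have h4' : ∑ j ∈ Finset.Icc 1 ⌊T ^ (1 / 4 : ℝ)⌋₊,
        ((g j : ℝ) : ℂ) * (j : ℂ) ^ (-(1 - (c + t * I))) =
        DQ T g (1 - (c + t * I)) := rfl
    rw [h2, h4']
    ring
  rw [h1] at he
  set V := VI c (fun s => logDeriv riemannZeta s *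
        (DQ T f s * DQ T g (1 - s)) * WW T s) with hV
  have h2 : (cG T : ℂ) * ∑ j ∈ Finset.Icc 1 ⌊T ^ (1 / 4 : ℝ)⌋₊, (((La * f) j : ℝ) : ℂ) *
      ((g j : ℝ) : ℂ) / (j : ℂ) =
      ((cG T * ∑ j ∈ Finset.Icc 1 (NQ T), (La * f) j * g j / j : ℝ) : ℂ) := by
    push_cast
    rfl
  rw [h2] at he
  have h3 := Complex.abs_re_le_norm (-V - ((cG T * ∑ j ∈ Finset.Icc 1 (NQ T),
        (La * f) j * g j / j : ℝ) : ℂ))
  rw [Complex.sub_re, Complex.neg_re, Complex.ofReal_re] at h3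
  have h7 : V.re + cG T * ∑ j ∈ Finset.Icc 1 (NQ T), (La * f) j * g j / j =
      -(-V.re - cG T * ∑ j ∈ Finset.Icc 1 (NQ T), (La * f) j * g j / j) := by ring
  rw [h7, abs_neg]
  exact h3.trans he

/-- The part with `ω`, on the critical line. -/
lemma om_part (hchi : ChiStatement) (C T : ℝ) (hT : 20 ≤ T) (hCT : 2 * C ≤ T)
    (hC : ∀ s : ℂ, 0 < s.re → s.re ≤ 2 → 1 ≤ s.im →
      ‖om s - (Real.log (s.im / (2 * Real.pi)) : ℂ)‖ ≤ C / s.im)
    (φ ψ : ℝ → ℝ) (F : ℂ → ℂ) (hFc : Continuous F)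
    (hF : ∀ t : ℝ, F (1 / 2 + t * I) = ((φ t : ℝ) : ℂ))
    (hFint : Integrable (fun t : ℝ => F (((1 / 2 : ℝ) : ℂ) + t * I) *
      WW T (((1 / 2 : ℝ) : ℂ) + t * I)))
    (hψ : ∀ t, |φ t| ≤ ψ t) (hψint : Integrable (fun t : ℝ => ψ t * MS.wt T t)) :
    |(VF (1 / 2) T (fun s => om s * F s * WW T s)).re -
      Real.log T * (VF (1 / 2) T (fun s => F s * WW T s)).re| ≤
      4 * ((1 / (2 * Real.pi)) * ∫ t : ℝ, ψ t * MS.wt T t) := by
  have hhalf : (((1 / 2 : ℝ)) : ℂ) = 1 / 2 := P5.H23.half_cast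
  have hline : Continuous (fun t : ℝ => (((1 / 2 : ℝ) : ℂ) + t * I : ℂ)) := by fun_prop
  have hW : Continuous (WW T) := by unfold WW; fun_prop
  have hpi : 0 < 1 / (2 * Real.pi) := by positivity
  have hcont : ContinuousOn (fun t : ℝ => om (((1 / 2 : ℝ) : ℂ) + t * I) *
      F (((1 / 2 : ℝ) : ℂ) + t * I) * WW T (((1 / 2 : ℝ) : ℂ) + t * I))
      (Set.uIcc (T / 2) (2 * T)) := by
    intro t ht
    rw [Set.uIcc_of_le (by linarith)] at ht
    have h1 : DifferentiableAt ℂ om (((1 / 2 : ℝ) : ℂ) + t * I) :=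
      P5.H51.om_diff hchi _ (by simp) (by
        simp only [Complex.add_im, Complex.ofReal_im, Complex.mul_im, Complex.ofReal_re,
          Complex.I_im, Complex.I_re, mul_one, mul_zero, add_zero, zero_add]
        have := ht.1
        intro h
        linarith)
    have h2 : ContinuousAt (fun t : ℝ => om (((1 / 2 : ℝ) : ℂ) + t * I)) t :=
      ContinuousAt.comp (f := fun t : ℝ => (((1 / 2 : ℝ) : ℂ) + t * I : ℂ)) (g := om)
        h1.continuousAt hline.continuousAt
    exact ((h2.mul (hFc.comp hline).continuousAt).mul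
      (hW.comp hline).continuousAt).continuousWithinAt
  have hii := hcont.intervalIntegrable (μ := volume)
  have hFW : ∀ t : ℝ, F (((1 / 2 : ℝ) : ℂ) + t * I) * WW T (((1 / 2 : ℝ) : ℂ) + t * I) =
      ((φ t * MS.wt T t : ℝ) : ℂ) := by
    intro t
    rw [P5.H23.WW_half, hhalf, hF]
    push_cast
    rfl
  have hgint : Integrable (fun t : ℝ => φ t * MS.wt T t) := by
    have h1 := hFint.re
    refine h1.congr (Filter.Eventually.of_forall (fun t => ?_))
    show (F (((1 / 2 : ℝ) : ℂ) + t * I) * WW T (((1 / 2 : ℝ) : ℂ) + t * I)).re = _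
    rw [hFW t, Complex.ofReal_re]
  have hre1 : (VF (1 / 2) T (fun s => om s * F s * WW T s)).re =
      1 / (2 * Real.pi) * ∫ t in (T / 2)..(2 * T), (om (((1 / 2 : ℝ) : ℂ) + t * I)).re *
        (φ t * MS.wt T t) := by
    unfold VF
    have h0 : (1 / (2 * Real.pi) : ℂ) = ((1 / (2 * Real.pi) : ℝ) : ℂ) := by push_cast; rfl
    rw [h0, Complex.re_ofReal_mul]
    congr 1
    have hre : (∫ t in (T / 2)..(2 * T), om (((1 / 2 : ℝ) : ℂ) + t * I) *
        F (((1 / 2 : ℝ) : ℂ) + t * I) * WW T (((1 / 2 : ℝ) : ℂ) + t * I)).re =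
        ∫ t in (T / 2)..(2 * T), (om (((1 / 2 : ℝ) : ℂ) + t * I) *
        F (((1 / 2 : ℝ) : ℂ) + t * I) * WW T (((1 / 2 : ℝ) : ℂ) + t * I)).re :=
      (Complex.reCLM.intervalIntegral_comp_comm hii).symm
    rw [hre]
    refine intervalIntegral.integral_congr fun t _ => ?_
    show (om (((1 / 2 : ℝ) : ℂ) + t * I) * F (((1 / 2 : ℝ) : ℂ) + t * I) *
      WW T (((1 / 2 : ℝ) : ℂ) + t * I)).re = _
    rw [mul_assoc, hFW t, Complex.re_mul_ofReal]
  have hre2 : (VF (1 / 2) T (fun s => F s * WW T s)).re =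
      1 / (2 * Real.pi) * ∫ t in (T / 2)..(2 * T), φ t * MS.wt T t := by
    unfold VF
    have h0 : (1 / (2 * Real.pi) : ℂ) = ((1 / (2 * Real.pi) : ℝ) : ℂ) := by push_cast; rfl
    rw [h0, Complex.re_ofReal_mul]
    congr 1
    have h1 : ∫ t in (T / 2)..(2 * T), F (((1 / 2 : ℝ) : ℂ) + t * I) *
        WW T (((1 / 2 : ℝ) : ℂ) + t * I) =
        ∫ t in (T / 2)..(2 * T), ((φ t * MS.wt T t : ℝ) : ℂ) :=
      intervalIntegral.integral_congr fun t _ => hFW t
    rw [h1, intervalIntegral.integral_ofReal, Complex.ofReal_re]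
  have hi1 : IntervalIntegrable (fun t => (om (((1 / 2 : ℝ) : ℂ) + t * I)).re *
      (φ t * MS.wt T t)) volume (T / 2) (2 * T) := by
    have h1 : IntervalIntegrable (fun t => (om (((1 / 2 : ℝ) : ℂ) + t * I) *
        F (((1 / 2 : ℝ) : ℂ) + t * I) * WW T (((1 / 2 : ℝ) : ℂ) + t * I)).re)
        volume (T / 2) (2 * T) :=
      (Complex.continuous_re.comp_continuousOn hcont).intervalIntegrable
    refine h1.congr (fun t _ => ?_)
    show (om (((1 / 2 : ℝ) : ℂ) + t * I) * F (((1 / 2 : ℝ) : ℂ) + t * I) *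
      WW T (((1 / 2 : ℝ) : ℂ) + t * I)).re = _
    rw [mul_assoc, hFW t, Complex.re_mul_ofReal]
  have hi2 : IntervalIntegrable (fun t => Real.log T * (φ t * MS.wt T t))
      volume (T / 2) (2 * T) := (hgint.const_mul _).intervalIntegrable
  have hi3 : IntervalIntegrable (fun t => 4 * (ψ t * MS.wt T t))
      volume (T / 2) (2 * T) := (hψint.const_mul _).intervalIntegrable
  have hdiff : (VF (1 / 2) T (fun s => om s * F s * WW T s)).re -
      Real.log T * (VF (1 / 2) T (fun s => F s * WW T s)).re =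
      1 / (2 * Real.pi) * ∫ t in (T / 2)..(2 * T),
        ((om (((1 / 2 : ℝ) : ℂ) + t * I)).re * (φ t * MS.wt T t) -
          Real.log T * (φ t * MS.wt T t)) := by
    rw [hre1, hre2, intervalIntegral.integral_sub hi1 hi2,
      intervalIntegral.integral_const_mul]
    ring
  have hw0 : ∀ t : ℝ, 0 ≤ MS.wt T t := fun t => (Real.exp_pos _).le
  have hψ0 : ∀ t : ℝ, 0 ≤ ψ t * MS.wt T t := fun t =>
    mul_nonneg ((abs_nonneg _).trans (hψ t)) (hw0 t)
  have hbd : ∀ t : ℝ, T / 2 ≤ t → t ≤ 2 * T →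
      |(om (((1 / 2 : ℝ) : ℂ) + t * I)).re - Real.log T| ≤ 4 := by
    intro t h1 h2
    have him : (((1 / 2 : ℝ) : ℂ) + t * I : ℂ).im = t := by simp
    have hre : (((1 / 2 : ℝ) : ℂ) + t * I : ℂ).re = 1 / 2 := by simp
    have h3 := hC (((1 / 2 : ℝ) : ℂ) + t * I) (by rw [hre]; norm_num) (by rw [hre]; norm_num)
      (by rw [him]; linarith)
    rw [him] at h3
    have h5 := (Complex.abs_re_le_norm (om (((1 / 2 : ℝ) : ℂ) + t * I) -
      (Real.log (t / (2 * Real.pi)) : ℂ))).trans h3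
    rw [Complex.sub_re, Complex.ofReal_re] at h5
    have h6 : C / t ≤ 1 := by
      rw [div_le_one (by linarith)]
      linarith
    have ht0 : 0 < t := by linarith
    have hpi3 := Real.pi_gt_three
    have hpi4 := Real.pi_lt_four
    have hup : Real.log (t / (2 * Real.pi)) ≤ Real.log T := by
      apply Real.log_le_log (by positivity)
      rw [div_le_iff₀ (by positivity)]
      nlinarith
    have hlo : Real.log T - 3 ≤ Real.log (t / (2 * Real.pi)) := by
      have h7 : T * Real.exp (-3) ≤ t / (2 * Real.pi) := by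
        rw [le_div_iff₀ (by positivity)]
        have h8 : Real.exp (-3) ≤ 1 / 16 := by
          rw [Real.exp_neg, ← one_div]
          apply one_div_le_one_div_of_le (by norm_num)
          have h9 : (2.7 : ℝ) ≤ Real.exp 1 := by
            have := Real.exp_one_gt_d9
            linarith
          have h10 : Real.exp 3 = Real.exp 1 ^ 3 := by
            rw [← Real.exp_nat_mul]
            norm_num
          rw [h10]
          calc (16 : ℝ) ≤ 2.7 ^ 3 := by norm_num
            _ ≤ Real.exp 1 ^ 3 := pow_le_pow_left₀ (by norm_num) h9 3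
        have hT0 : 0 < T := by linarith
        have h11 : T * Real.exp (-3) * (2 * Real.pi) ≤ T * (1 / 16) * (2 * 4) := by
          apply mul_le_mul (mul_le_mul_of_nonneg_left h8 hT0.le) (by linarith) (by positivity)
            (by positivity)
        linarith
      have h12 := Real.log_le_log (by positivity) h7
      rw [Real.log_mul (by linarith) (Real.exp_pos _).ne', Real.log_exp] at h12
      linarith
    rw [abs_le] at h5 ⊢
    constructor <;> linarith [h5.1, h5.2]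
  rw [hdiff, abs_mul, abs_of_pos hpi]
  have h8 : |∫ t in (T / 2)..(2 * T),
        ((om (((1 / 2 : ℝ) : ℂ) + t * I)).re * (φ t * MS.wt T t) -
          Real.log T * (φ t * MS.wt T t))| ≤
      ∫ t in (T / 2)..(2 * T), 4 * (ψ t * MS.wt T t) := by
    have h9 := intervalIntegral.norm_integral_le_of_norm_le (μ := volume) (a := T / 2)
      (b := 2 * T) (f := fun t => (om (((1 / 2 : ℝ) : ℂ) + t * I)).re * (φ t * MS.wt T t) -
          Real.log T * (φ t * MS.wt T t)) (g := fun t => 4 * (ψ t * MS.wt T t))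
      (by linarith) (by
        refine Filter.Eventually.of_forall fun t ht => ?_
        rw [← sub_mul, Real.norm_eq_abs, abs_mul, abs_mul, abs_of_nonneg (hw0 t)]
        apply mul_le_mul (hbd t ht.1.le ht.2)
          (mul_le_mul_of_nonneg_right (hψ t) (hw0 t))
          (mul_nonneg (abs_nonneg _) (hw0 t)) (by norm_num)) hi3
    rw [Real.norm_eq_abs] at h9
    exact h9
  have h10 : ∫ t in (T / 2)..(2 * T), 4 * (ψ t * MS.wt T t) ≤
      4 * ∫ t : ℝ, ψ t * MS.wt T t := by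
    rw [intervalIntegral.integral_const_mul, intervalIntegral.integral_of_le (by linarith)]
    exact mul_le_mul_of_nonneg_left
      (setIntegral_le_integral hψint (Filter.Eventually.of_forall hψ0)) (by norm_num)
  calc 1 / (2 * Real.pi) * _ ≤ 1 / (2 * Real.pi) * (4 * ∫ t : ℝ, ψ t * MS.wt T t) :=
        mul_le_mul_of_nonneg_left (h8.trans h10) hpi.le
    _ = _ := by ring

/-- SMV. -/
theorem smv (hZ : ZeroSumStatement) (hTl : TailStatement) (hE : Edge1Statement)
    (hcho : OmAsympStatement) (hLS : LSerStatement)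
    (hMov : P5.MovStatement) (hchi : ChiStatement) (hDD : DDStatement)
    (hMVL : MvlStatement) : SmvStatement := by
  classical
  obtain ⟨c, hc1, hc2⟩ : ∃ c : ℝ, 1 < c ∧ c < 3 / 2 := ⟨5 / 4, by norm_num, by norm_num⟩
  set A : ℝ := 12 with hA
  obtain ⟨C, hC0, hC⟩ := hcho
  obtain ⟨TM, hTM3, hMM⟩ := hMVL
  have hev := ((hZ A c hc1 hc2).and ((hTl A c (by linarith) (by linarith)).and
    ((hTl A (1 / 2) (by norm_num) (by norm_num)).and
    ((hE (1 / 4) c A (by norm_num) (by norm_num) hc1 hc2).and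
    ((hMov A c hc1 hc2).and hDD.2.2.1)))))
  obtain ⟨T1, hT1⟩ := Filter.eventually_atTop.1 hev
  set K : ℝ := AN c La with hK
  refine ⟨30, max TM (max T1 (max 20 (max (2 * C) K))), by norm_num, ?_, ?_⟩
  · have : (20 : ℝ) ≤ max TM (max T1 (max 20 (max (2 * C) K))) :=
      (le_max_left _ _).trans ((le_max_right _ _).trans (le_max_right _ _))
    linarith
  intro T hT f g hf hg
  have hTM : TM ≤ T := (le_max_left _ _).trans hT
  have hTT1 : T1 ≤ T := ((le_max_left _ _).trans (le_max_right _ _)).trans hT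
  have hT20 : 20 ≤ T :=
    ((le_max_left _ _).trans ((le_max_right _ _).trans (le_max_right _ _))).trans hT
  have hTC : 2 * C ≤ T := ((le_max_left _ _).trans ((le_max_right _ _).trans
    ((le_max_right _ _).trans (le_max_right _ _)))).trans hT
  have hTK : K ≤ T := ((le_max_right _ _).trans ((le_max_right _ _).trans
    ((le_max_right _ _).trans (le_max_right _ _)))).trans hT
  obtain ⟨hZT, hTT, hTH, hET, hMovT, hDT⟩ := hT1 T hTT1
  have hT0 : 0 < T := by linarith
  have hT1' : 1 < T := by linarith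
  have hlog : 0 < Real.log T := Real.log_pos hT1'
  have hcG : 0 < cG T := hDT.2.2.1
  have hTinv : 1 / T ≤ 1 := by rw [div_le_one hT0]; linarith
  have hTinv0 : 0 < 1 / T := by positivity
  obtain ⟨hALa, -, -⟩ := hLS.2.2.2.1 c hc1
  have hpow : ∀ a b : ℝ, a ≤ b → T ^ a ≤ T ^ b :=
    fun a b h => Real.rpow_le_rpow_of_exponent_le hT1'.le h
  set P : ℂ → ℂ := DQ T f with hPdef
  set R : ℂ → ℂ := DQ T g with hRdef
  have hPd : Differentiable ℂ P := H70.dpoly_diff f _
  have hRd : Differentiable ℂ R := H70.dpoly_diff g _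
  have hPconj : ∀ s : ℂ, P ((starRingEnd ℂ) s) = (starRingEnd ℂ) (P s) := H70.dpoly_conj f _
  have hRconj : ∀ s : ℂ, R ((starRingEnd ℂ) s) = (starRingEnd ℂ) (R s) := H70.dpoly_conj g _
  set F1 : ℂ → ℂ := fun s => P s * R (1 - s) with hF1
  set F2 : ℂ → ℂ := fun s => R s * P (1 - s) with hF2
  set F : ℂ → ℂ := fun s => (F1 s + F2 s) / 2 with hF
  have hsub : Differentiable ℂ (fun s : ℂ => 1 - s) :=
    (differentiable_const _).sub differentiable_id
  have hF1d : Differentiable ℂ F1 := hPd.mul (hRd.comp hsub)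
  have hF2d : Differentiable ℂ F2 := hRd.mul (hPd.comp hsub)
  have hFd : Differentiable ℂ F := (hF1d.add hF2d).div_const 2
  have hFconj : ∀ s : ℂ, (starRingEnd ℂ) (F (1 - (starRingEnd ℂ) s)) = F s := by
    intro s
    have e1 : (starRingEnd ℂ) (P (1 - (starRingEnd ℂ) s)) = P (1 - s) := by
      rw [← hPconj, map_sub, map_one, Complex.conj_conj]
    have e2 : (starRingEnd ℂ) (R (1 - (starRingEnd ℂ) s)) = R (1 - s) := by
      rw [← hRconj, map_sub, map_one, Complex.conj_conj]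
    have e3 : (starRingEnd ℂ) (P (1 - (1 - (starRingEnd ℂ) s))) = P s := by
      rw [← hPconj, sub_sub_cancel, Complex.conj_conj]
    have e4 : (starRingEnd ℂ) (R (1 - (1 - (starRingEnd ℂ) s))) = R s := by
      rw [← hRconj, sub_sub_cancel, Complex.conj_conj]
    simp only [hF, hF1, hF2]
    rw [map_div₀, map_add, map_mul, map_mul, e1, e2, e3, e4, map_ofNat]
    ring
  have hhalfc : ∀ t : ℝ, (1 : ℂ) - (1 / 2 + t * I) = (starRingEnd ℂ) (1 / 2 + t * I) := by
    intro t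
    simp only [map_add, map_mul, Complex.conj_ofReal, Complex.conj_I, map_div₀, map_one,
      map_ofNat]
    ring
  set φ : ℝ → ℝ := fun t => (P (1 / 2 + t * I) * (starRingEnd ℂ) (R (1 / 2 + t * I))).re with hφ
  have hFhalf : ∀ t : ℝ, F (1 / 2 + t * I) = ((φ t : ℝ) : ℂ) := by
    intro t
    have h1 : P (1 - (1 / 2 + t * I)) = (starRingEnd ℂ) (P (1 / 2 + t * I)) := by
      rw [hhalfc, hPconj]
    have h2 : R (1 - (1 / 2 + t * I)) = (starRingEnd ℂ) (R (1 / 2 + t * I)) := by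
      rw [hhalfc, hRconj]
    simp only [hF, hF1, hF2, hφ]
    rw [h1, h2]
    apply Complex.ext
    · simp
      ring
    · simp
      ring
  have hZS := H70.ZS_real T F φ hFhalf
  set Z : ℝ := ∑ᶠ γ ∈ zset T, (mz γ : ℝ) * wt T γ * φ γ with hZdef
  have hPb : ∀ s : ℂ, -1 ≤ s.re → ‖P s‖ ≤ T ^ (5 : ℝ) := fun s hs =>
    H70.sum_norm_le f _ T hT1'.le (NQ_le hT1'.le) (fun n => (hf n).1) s hs
  have hRb : ∀ s : ℂ, -1 ≤ s.re → ‖R s‖ ≤ T ^ (5 : ℝ) := fun s hs =>
    H70.sum_norm_le g _ T hT1'.le (NQ_le hT1'.le) (fun n => (hg n).1) s hs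
  have h510 : T ^ (10 : ℝ) = T ^ (5 : ℝ) * T ^ (5 : ℝ) := by
    rw [← Real.rpow_add hT0]; norm_num
  have hF1b : ∀ s : ℂ, -1 ≤ s.re → s.re ≤ 2 → ‖F1 s‖ ≤ T ^ (10 : ℝ) := by
    intro s hs1 hs2
    simp only [hF1]
    rw [norm_mul, h510]
    exact mul_le_mul (hPb s hs1) (hRb _ (by rw [Complex.sub_re, Complex.one_re]; linarith))
      (norm_nonneg _) (by positivity)
  have hF2b : ∀ s : ℂ, -1 ≤ s.re → s.re ≤ 2 → ‖F2 s‖ ≤ T ^ (10 : ℝ) := by
    intro s hs1 hs2
    simp only [hF2]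
    rw [norm_mul, h510]
    exact mul_le_mul (hRb s hs1) (hPb _ (by rw [Complex.sub_re, Complex.one_re]; linarith))
      (norm_nonneg _) (by positivity)
  have hFb : ∀ s : ℂ, -1 ≤ s.re → s.re ≤ 2 → ‖F s‖ ≤ T ^ (10 : ℝ) := by
    intro s hs1 hs2
    simp only [hF]
    rw [norm_div]
    have h1 := norm_add_le (F1 s) (F2 s)
    have h2 := hF1b s hs1 hs2
    have h3 := hF2b s hs1 hs2
    have h4 : ‖(2 : ℂ)‖ = 2 := by norm_num
    rw [h4, div_le_iff₀ (by norm_num)]
    linarith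
  have hz := hZT F hFd.differentiableOn (fun s hs => (hFb s (by linarith [hs.1.1])
    (by linarith [hs.1.2])).trans (hpow _ _ (by rw [hA]; norm_num)))
  simp_rw [hFconj] at hz
  have hmv := hMovT F hFd.differentiableOn (fun s hs => (hFb s (by linarith [hs.1.1])
    (by linarith [hs.1.2])).trans (hpow _ _ (by rw [hA]; norm_num)))
  have hline : Continuous (fun t : ℝ => (c + t * I : ℂ)) := by fun_prop
  have hre : ∀ t : ℝ, (c + t * I : ℂ).re = c := by intro t; simp
  have hWc : Continuous (WW T) := by unfold WW; fun_prop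
  -- the zeta part
  have hzeta : ∀ t : ℝ, ‖logDeriv riemannZeta (c + t * I)‖ ≤ T := by
    intro t
    have h1 := ZBB.norm_LS_le La c hALa (c + t * I) (hre t)
    rw [hLS.1 _ (by rw [hre]; exact hc1), norm_neg] at h1
    exact h1.trans hTK
  have h1t : ∀ t : ℝ, (1 : ℝ) ≤ (1 + |t|) ^ A := by
    intro t
    exact Real.one_le_rpow (by linarith [abs_nonneg t]) (by rw [hA]; norm_num)
  have hTA0 : 0 ≤ T ^ A := by positivity
  have htail : ∀ G : ℂ → ℂ, Continuous G → (∀ s : ℂ, -1 ≤ s.re → s.re ≤ 2 → ‖G s‖ ≤ T ^ (10 : ℝ)) →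
      Integrable (fun t : ℝ => (logDeriv riemannZeta (c + t * I) * G (c + t * I)) *
        WW T (c + t * I)) ∧
      ‖VI c (fun s => (logDeriv riemannZeta s * G s) * WW T s) -
        VF c T (fun s => (logDeriv riemannZeta s * G s) * WW T s)‖ ≤ 1 / T := by
    intro G hG hGb
    exact hTT (fun s => logDeriv riemannZeta s * G s) (by
      exact ((ZBB.meas_zeta c hc1).mul (hG.comp hline).measurable).aestronglyMeasurable)
      (fun t => by
        rw [norm_mul]
        have h1 : ‖logDeriv riemannZeta (c + t * I)‖ * ‖G (c + t * I)‖ ≤ T ^ A := by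
          calc ‖logDeriv riemannZeta (c + t * I)‖ * ‖G (c + t * I)‖ ≤ T * T ^ (10 : ℝ) :=
                mul_le_mul (hzeta t) (hGb _ (by rw [hre]; linarith) (by rw [hre]; linarith))
                  (norm_nonneg _) hT0.le
            _ = T ^ (1 + 10 : ℝ) := by rw [Real.rpow_add hT0, Real.rpow_one]
            _ ≤ T ^ A := hpow _ _ (by rw [hA]; norm_num)
        exact h1.trans (le_mul_of_one_le_right hTA0 (h1t t)))
  obtain ⟨i1, t1⟩ := htail F hFd.continuous hFb
  obtain ⟨ia, -⟩ := htail F1 hF1d.continuous hF1b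
  obtain ⟨ib, -⟩ := htail F2 hF2d.continuous hF2b
  obtain ⟨i2, t2⟩ := hTH F (by
    have hl : Continuous (fun t : ℝ => (((1 / 2 : ℝ) : ℂ) + t * I : ℂ)) := by fun_prop
    exact (hFd.continuous.comp hl).aestronglyMeasurable) (fun t => by
      have h1 : ‖F (((1 / 2 : ℝ) : ℂ) + t * I)‖ ≤ T ^ A :=
        (hFb _ (by simp; norm_num) (by simp; norm_num)).trans (hpow _ _ (by rw [hA]; norm_num))
      exact h1.trans (le_mul_of_one_le_right hTA0 (h1t t)))
  have hza := zeta_part hLS c T hc1 hT1'.le hTK f g hf hg hET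
  have hzb := zeta_part hLS c T hc1 hT1'.le hTK g f hg hf hET
  set Sa : ℝ := ∑ k ∈ Finset.Icc 1 (NQ T), (La * f) k * g k / k with hSa
  set Sb : ℝ := ∑ k ∈ Finset.Icc 1 (NQ T), (La * g) k * f k / k with hSb
  set Va := VI c (fun s => logDeriv riemannZeta s * (P s * R (1 - s)) * WW T s) with hVa
  set Vb := VI c (fun s => logDeriv riemannZeta s * (R s * P (1 - s)) * WW T s) with hVb
  have hVab : VI c (fun s => (logDeriv riemannZeta s * F s) * WW T s) = (Va + Vb) / 2 := by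
    rw [hVa, hVb]
    unfold VI
    rw [← mul_add, ← integral_add ia ib, mul_div_assoc, ← integral_div]
    congr 1
    refine integral_congr_ae (Filter.Eventually.of_forall fun t => ?_)
    simp only [hF, hF1, hF2]
    ring
  set V1 := VF c T (fun s => logDeriv riemannZeta s * F s * WW T s) with hV1
  set V3 := VF c T (fun s => om s * F s * WW T s) with hV3
  have hV1re : |V1.re + cG T * (Sa + Sb) / 2| ≤ 2 := by
    have h1 := Complex.abs_re_le_norm (VI c (fun s => (logDeriv riemannZeta s * F s) * WW T s) - V1)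
    have h2 := h1.trans t1
    rw [Complex.sub_re, hVab] at h2
    have h3 : ((Va + Vb) / 2).re = (Va.re + Vb.re) / 2 := by simp
    rw [h3] at h2
    rw [abs_le] at h2 hza hzb ⊢
    constructor <;> linarith [h2.1, h2.2, hza.1, hza.2, hzb.1, hzb.2]
  have hV2 : VF c T (fun s => (om s + logDeriv riemannZeta s) * F s * WW T s) = V3 + V1 := by
    rw [hV3, hV1]
    unfold VF
    rw [← mul_add, ← intervalIntegral.integral_add]
    · congr 1
      apply intervalIntegral.integral_congr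
      intro t _
      simp only
      ring
    · apply ContinuousOn.intervalIntegrable
      intro t ht
      rw [Set.uIcc_of_le (by linarith)] at ht
      have h1 : DifferentiableAt ℂ om (c + t * I) :=
        P5.H51.om_diff hchi _ (by rw [hre]; linarith) (by
          simp only [Complex.add_im, Complex.ofReal_im, Complex.mul_im, Complex.ofReal_re,
            Complex.I_im, Complex.I_re, mul_one, mul_zero, add_zero, zero_add]
          have := ht.1
          intro h
          linarith)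
      have h2 : ContinuousAt (fun t : ℝ => om (c + t * I)) t :=
        ContinuousAt.comp (f := fun t : ℝ => (c + t * I : ℂ)) (g := om)
          h1.continuousAt hline.continuousAt
      exact ((h2.mul (hFd.continuous.comp hline).continuousAt).mul
        (hWc.comp hline).continuousAt).continuousWithinAt
    · exact i1.intervalIntegrable
  rw [hV2] at hz
  -- the om part
  obtain ⟨mi, mfg⟩ := hMM T hTM f g hf hg
  obtain ⟨mi1, mff⟩ := hMM T hTM f f hf hf
  obtain ⟨mi2, mgg⟩ := hMM T hTM g g hg hg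
  set S : ℝ := ∑ n ∈ Finset.Icc 1 (NQ T), f n * g n / (n : ℝ) with hS
  set Sf : ℝ := ∑ n ∈ Finset.Icc 1 (NQ T), f n * f n / (n : ℝ) with hSf
  set Sg : ℝ := ∑ n ∈ Finset.Icc 1 (NQ T), g n * g n / (n : ℝ) with hSg
  set S2 : ℝ := ∑ n ∈ Finset.Icc 1 (NQ T), (f n ^ 2 + g n ^ 2) / (n : ℝ) with hS2
  have hS2eq : S2 = Sf + Sg := by
    rw [hS2, hSf, hSg, ← Finset.sum_add_distrib]
    refine Finset.sum_congr rfl fun n _ => ?_
    ring
  set ψ : ℝ → ℝ := fun t => ((P (1 / 2 + t * I) * (starRingEnd ℂ) (P (1 / 2 + t * I))).re +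
    (R (1 / 2 + t * I) * (starRingEnd ℂ) (R (1 / 2 + t * I))).re) / 2 with hψdef
  have hsq : ∀ z : ℂ, (z * (starRingEnd ℂ) z).re = ‖z‖ ^ 2 := by
    intro z
    rw [Complex.mul_conj, Complex.ofReal_re, Complex.normSq_eq_norm_sq]
  have hψ : ∀ t, |φ t| ≤ ψ t := by
    intro t
    simp only [hφ, hψdef]
    rw [hsq, hsq]
    have h1 := Complex.abs_re_le_norm (P (1 / 2 + t * I) * (starRingEnd ℂ) (R (1 / 2 + t * I)))
    rw [norm_mul, Complex.norm_conj] at h1
    have h2 := sq_nonneg (‖P (1 / 2 + t * I)‖ - ‖R (1 / 2 + t * I)‖)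
    linarith
  have hψeq : (fun t : ℝ => ψ t * MS.wt T t) = fun t : ℝ =>
      ((P (1 / 2 + t * I) * (starRingEnd ℂ) (P (1 / 2 + t * I))).re * MS.wt T t +
      (R (1 / 2 + t * I) * (starRingEnd ℂ) (R (1 / 2 + t * I))).re * MS.wt T t) / 2 := by
    funext t
    simp only [hψdef]
    ring
  have hψint : Integrable (fun t : ℝ => ψ t * MS.wt T t) := by
    rw [hψeq]
    exact (mi1.add mi2).div_const 2
  have hψI : (1 / (2 * Real.pi)) * ∫ t : ℝ, ψ t * MS.wt T t ≤ (cG T * S2 + 2 / T) / 2 := by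
    rw [hψeq, integral_div, integral_add mi1 mi2, hS2eq]
    rw [abs_le] at mff mgg
    have h1 := mff.2
    have h2 := mgg.2
    have h3 : (2 : ℝ) / T = 1 / T + 1 / T := by ring
    rw [h3]
    have h4 : 1 / (2 * Real.pi) * ((∫ t : ℝ, (P (1 / 2 + t * I) *
        (starRingEnd ℂ) (P (1 / 2 + t * I))).re * MS.wt T t) +
        ∫ t : ℝ, (R (1 / 2 + t * I) * (starRingEnd ℂ) (R (1 / 2 + t * I))).re * MS.wt T t) / 2 =
        (1 / (2 * Real.pi) * (∫ t : ℝ, (P (1 / 2 + t * I) *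
        (starRingEnd ℂ) (P (1 / 2 + t * I))).re * MS.wt T t) +
        1 / (2 * Real.pi) *
        ∫ t : ℝ, (R (1 / 2 + t * I) * (starRingEnd ℂ) (R (1 / 2 + t * I))).re * MS.wt T t) / 2 := by
      ring
    rw [← mul_div_assoc, h4]
    linarith
  have hom := om_part hchi C T hT20 hTC hC φ ψ F hFd.continuous hFhalf i2 hψ hψint
  have hhalf : (((1 / 2 : ℝ)) : ℂ) = 1 / 2 := P5.H23.half_cast
  have hVIre : (VI (1 / 2) (fun s => F s * WW T s)).re =
      1 / (2 * Real.pi) * ∫ t : ℝ, φ t * MS.wt T t := by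
    unfold VI
    have h0 : (1 / (2 * Real.pi) : ℂ) = ((1 / (2 * Real.pi) : ℝ) : ℂ) := by push_cast; rfl
    rw [h0, Complex.re_ofReal_mul]
    congr 1
    have h1 : ∫ t : ℝ, F (((1 / 2 : ℝ) : ℂ) + t * I) * WW T (((1 / 2 : ℝ) : ℂ) + t * I) =
        ∫ t : ℝ, ((φ t * MS.wt T t : ℝ) : ℂ) := by
      refine integral_congr_ae (Filter.Eventually.of_forall fun t => ?_)
      show F (((1 / 2 : ℝ) : ℂ) + t * I) * WW T (((1 / 2 : ℝ) : ℂ) + t * I) = _
      rw [P5.H23.WW_half, hhalf, hFhalf]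
      push_cast
      rfl
    rw [h1, integral_complex_ofReal, Complex.ofReal_re]
  have hVFhalf : |(VF (1 / 2) T (fun s => F s * WW T s)).re - cG T * S| ≤ 2 / T := by
    have h1 := (Complex.abs_re_le_norm (VI (1 / 2) (fun s => F s * WW T s) -
      VF (1 / 2) T (fun s => F s * WW T s))).trans t2
    rw [Complex.sub_re, hVIre] at h1
    have h3 : (2 : ℝ) / T = 1 / T + 1 / T := by ring
    rw [h3]
    rw [abs_le] at h1 mfg ⊢
    constructor
    · linarith [h1.2, mfg.1]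
    · linarith [h1.1, mfg.2]
  have hlT : Real.log T * (2 / T) ≤ 2 := by
    have h1 := Real.log_le_sub_one_of_pos hT0
    have h2 : Real.log T * (2 / T) = 2 * (Real.log T / T) := by ring
    have h3 : Real.log T / T ≤ 1 := by rw [div_le_one hT0]; linarith
    rw [h2]; linarith
  have hV3re : |V3.re - Real.log T * (cG T * S)| ≤ 1 + 4 * ((cG T * S2 + 2 / T) / 2) + 2 := by
    have h1 := (Complex.abs_re_le_norm
      (V3 - VF (1 / 2) T (fun s => om s * F s * WW T s))).trans hmv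
    rw [Complex.sub_re] at h1
    have h2 : |Real.log T * (VF (1 / 2) T (fun s => F s * WW T s)).re -
        Real.log T * (cG T * S)| ≤ 2 := by
      rw [← mul_sub, abs_mul, abs_of_pos hlog]
      exact (mul_le_mul_of_nonneg_left hVFhalf hlog.le).trans hlT
    have h3 := hom.trans (mul_le_mul_of_nonneg_left hψI (by norm_num : (0 : ℝ) ≤ 4))
    rw [abs_le] at h1 h2 h3 ⊢
    constructor
    · linarith [h1.1, h2.1, h3.1]
    · linarith [h1.2, h2.2, h3.2]
  have hfin : |Z - (V1.re + (V3.re + V1.re))| ≤ 1 := by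
    have h1 := Complex.abs_re_le_norm (ZS T F - (V1 + (starRingEnd ℂ) (V3 + V1)))
    have h2 := h1.trans hz
    rw [hZS, Complex.sub_re, Complex.add_re, Complex.conj_re, Complex.add_re,
      Complex.ofReal_re] at h2
    exact h2
  have hS20 : 0 ≤ S2 := Finset.sum_nonneg fun n _ => by positivity
  have hcS : 0 ≤ cG T * S2 := mul_nonneg hcG.le hS20
  have hSab : |cG T * (Sa + Sb)| ≤ cG T * (|Sa| + |Sb|) := by
    rw [abs_mul, abs_of_pos hcG]
    exact mul_le_mul_of_nonneg_left (abs_add_le _ _) hcG.le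
  have hab0 : 0 ≤ cG T * (|Sa| + |Sb|) := by positivity
  have e2 : (2 : ℝ) / T = 2 * (1 / T) := by ring
  rw [e2] at hV3re
  have hgoal : (30 : ℝ) * (cG T * (S2 + |Sa| + |Sb|) + 1) =
      30 * (cG T * S2) + 30 * (cG T * (|Sa| + |Sb|)) + 30 := by ring
  show |Z - cG T * Real.log T * S| ≤ 30 * (cG T * (S2 + |Sa| + |Sb|) + 1)
  rw [hgoal]
  have e3 : cG T * Real.log T * S = Real.log T * (cG T * S) := by ring
  rw [e3]
  rw [abs_le] at hfin hV3re hV1re hSab ⊢
  constructor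
  · linarith [hfin.1, hV3re.1, hV1re.1, hSab.1, hSab.2, hfin.2, hV3re.2, hV1re.2]
  · linarith [hfin.1, hV3re.1, hV1re.1, hSab.1, hSab.2, hfin.2, hV3re.2, hV1re.2]

end Pool.Agent.Lib.MP_6bc78b_nt.MS.QZ.H50
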